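import Pool.Agent.N757.AS.Fin
import Pool.Agent.N757.SL.Three

/-!
# Every line with three special points, one of them a cusp, is enough for abc over all number fields

Let `p, q, r ≥ 0` be integers. Consider the projective line over a number field `K` with a stacky point
of order `p` at `0`, of order `q` at `1` and of order `r` at `∞`, where order `0` means: not a stacky
point but a component of the divisor `𝒟` (a cusp). The canonical divisor plus `𝒟` has degree
`1 - 1/p - 1/q - 1/r` with `1/0 = 0`. The integral points over the `S`-integers, away from `0`, `1`, `∞`,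
are the `t ∈ K` such that at every prime outside `S` the valuation of `t` (of `1 - t`, of `1/t`) is divisible
by `p` (by `q`, by `r`) if it is positive. For `p = q = r = 0` Vojta's inequality for the integral points
is the abc conjecture over `K`, and it is well known that the abc conjecture over `K` implies the inequality
for all `p, q, r`.

Let `p, q` be ANY two orders such that the line with the orders `p`, `q` and the cusp `∞` has positive
degree `1 - 1/p - 1/q > 0`. We show that conversely the inequality for this one line implies the abc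
conjecture, over all number fields `K` which contain a certain number field `k` depending on `p` and `q`.
Hence the abc conjecture for all number fields is equivalent to the inequality for this one line over all
number fields, and hence to the inequality for the integral points close to the cusp `∞` at the infinite
places and at some other places, for a cofinal set of number fields.

The proof uses maps `A ^ p / (A ^ p - B ^ q)` of the line to itself, where `A`, `B` are coprime polynomials
such that `A ^ p - B ^ q` has the smallest possible degree (Davenport, Zannier); the existence of such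
polynomials is proved by Krull's height theorem, their properties by the theorem of Mason and Stothers.
-/

set_option autoImplicit false

namespace Pool.Agent.Results.MP_a793bb_nt.AllStackyLines

open NumberField IsDedekindDomain

variable {K : Type} [Field K] [NumberField K]

/-- the height `h(P)` of the point `P` with coordinates `x`, normalised by the degree of `K` -/
noncomputable def height3 (x : Fin 3 → K) : ℝ :=
  (∑ w : InfinitePlace K, (w.mult : ℝ) * Real.log (max (w (x 0)) (max (w (x 1)) (w (x 2)))) +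
    ∑ᶠ v : HeightOneSpectrum (𝓞 K), Real.log
      (max (FinitePlace.mk v (x 0)) (max (FinitePlace.mk v (x 1)) (FinitePlace.mk v (x 2))))) /
    (Module.finrank ℚ K : ℝ)

/-- `rad(P)` for the point `P` with coordinates `x`: the sum of `log N(v) / [K : ℚ]` over the primes `v`
at which the valuations of the coordinates are not all equal -/
noncomputable def rad3 (x : Fin 3 → K) : ℝ :=
  (∑ᶠ (v : HeightOneSpectrum (𝓞 K)) (_ : ¬ (FinitePlace.mk v (x 0) = FinitePlace.mk v (x 1) ∧
        FinitePlace.mk v (x 1) = FinitePlace.mk v (x 2))),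
    Real.log (Ideal.absNorm v.asIdeal : ℝ)) / (Module.finrank ℚ K : ℝ)

/-- the abc conjecture over `K`: for all `ε > 0` there is `C` with `h(P) < (1 + ε) rad(P) + C` for all
`P = (a : b : c)` with `a + b + c = 0`, `a b c ≠ 0` -/
def Abc (K : Type) [Field K] [NumberField K] : Prop :=
  ∀ ε : ℝ, 0 < ε → ∃ C : ℝ, ∀ x : Fin 3 → K, x 0 + x 1 + x 2 = 0 → x 0 * x 1 * x 2 ≠ 0 →
    height3 x < (1 + ε) * rad3 x + C

/-- the height `h(t)` of the point `(t : 1)` of the projective line, normalised by the degree of `K` -/
noncomputable def height (t : K) : ℝ :=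
  (∑ w : InfinitePlace K, (w.mult : ℝ) * Real.log (max 1 (w t)) +
    ∑ᶠ v : HeightOneSpectrum (𝓞 K), Real.log (max 1 (FinitePlace.mk v t))) /
    (Module.finrank ℚ K : ℝ)

/-- `t` is an integral point, over the `S`-integers, of the line with stacky points of orders `p`, `q`,
`r` at `0`, `1`, `∞`: at every prime `v` outside `S`, the valuation of `t`, if it is positive, is divisible
by `p`, that of `1 - t`, if it is positive, by `q`, and that of `t`, if it is negative, by `r` (no condition
for the orders which are `0`) -/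
def IsIntegralPoint (p q r : ℕ) (S : Set (HeightOneSpectrum (𝓞 K))) (t : K) : Prop :=
  ∀ v : HeightOneSpectrum (𝓞 K), v ∉ S →
    (p ≠ 0 → v.valuation K t < 1 → ∃ g : WithZero (Multiplicative ℤ), v.valuation K t = g ^ p) ∧
    (q ≠ 0 → v.valuation K (1 - t) < 1 →
      ∃ g : WithZero (Multiplicative ℤ), v.valuation K (1 - t) = g ^ q) ∧
    (r ≠ 0 → 1 < v.valuation K t → ∃ g : WithZero (Multiplicative ℤ), v.valuation K t = g ^ r)

/-- the truncated counting function `N^{(1)}(𝒟, t)` of the divisor `𝒟` consisting of `0` if `p = 0`, of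
`1` if `q = 0` and of `∞` if `r = 0`: the sum of `log N(v) / [K : ℚ]` over the primes `v` outside `S` at
which `t` meets `𝒟` -/
noncomputable def truncated (p q r : ℕ) (S : Set (HeightOneSpectrum (𝓞 K))) (t : K) : ℝ :=
  (∑ᶠ (v : HeightOneSpectrum (𝓞 K)) (_ : v ∉ S ∧ ((p = 0 ∧ v.valuation K t < 1) ∨
    (q = 0 ∧ v.valuation K (1 - t) < 1) ∨ (r = 0 ∧ 1 < v.valuation K t))),
    Real.log (Ideal.absNorm v.asIdeal : ℝ)) / (Module.finrank ℚ K : ℝ)

/-- Vojta's inequality for the integral points with the property `A` of this line: for every `δ > 0` there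
is a constant `C` with `(1 - 1/p - 1/q - 1/r - δ) h(t) ≤ N^{(1)}(𝒟, t) + C` for these points `t ≠ 0, 1`
(with `1/0 = 0`) -/
def Vojta (p q r : ℕ) (S : Set (HeightOneSpectrum (𝓞 K))) (A : K → Prop) : Prop :=
  ∀ δ : ℝ, 0 < δ → ∃ C : ℝ, ∀ t : K, t ≠ 0 → t ≠ 1 → IsIntegralPoint p q r S t → A t →
    (1 - 1 / (p : ℝ) - 1 / (q : ℝ) - 1 / (r : ℝ) - δ) * height t ≤ truncated p q r S t + C

/-- `t` is close to `∞` at the infinite places and at the primes of `T` -/
def Close (T : Set (HeightOneSpectrum (𝓞 K))) (η : ℝ) (t : K) : Prop :=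
  (∀ w : InfinitePlace K, 1 ≤ η * w t) ∧ ∀ v ∈ T, 1 ≤ η * FinitePlace.mk v t

open Pool.Agent.N757.RD Pool.Agent.N757.TL Pool.Agent.N757.SL

theorem abc_iff : Abc K ↔ ABC K := by
  have hd := dg_pos (K := K)
  have hmul : ∀ x : Fin 3 → K, dg K * height3 x = H3 x := fun x => by
    rw [show height3 x = H3 x / dg K from rfl, mul_div_cancel₀ _ dg_pos.ne']
  have rmul : ∀ x : Fin 3 → K, x 0 + x 1 + x 2 = 0 → x 0 * x 1 * x 2 ≠ 0 →
      dg K * rad3 x = R (yy x) := fun x h1 h2 => by
    have e : rad3 x = R (yy x) / dg K := by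
      unfold R
      rw [I_yy h1 h2]
      rfl
    rw [e, mul_div_cancel₀ _ dg_pos.ne']
  constructor
  · intro h ε hε
    obtain ⟨C, hC⟩ := h ε hε
    refine ⟨dg K * C, fun y hy => ?_⟩
    have h2 : (1 : K) - y ≠ 0 := sub_ne_zero.2 hy.2.symm
    have p1 : (![y, 1 - y, -1] : Fin 3 → K) 0 + (![y, 1 - y, -1] : Fin 3 → K) 1 +
      (![y, 1 - y, -1] : Fin 3 → K) 2 = 0 := by simp
    have p2 : (![y, 1 - y, -1] : Fin 3 → K) 0 * (![y, 1 - y, -1] : Fin 3 → K) 1 *
      (![y, 1 - y, -1] : Fin 3 → K) 2 ≠ 0 := by simp [hy.1, h2]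
    have hyy : yy (![y, 1 - y, -1] : Fin 3 → K) = y := by simp [yy]
    have h3 := hC _ p1 p2
    have h4 := (H3_bounds p1 p2).1
    have h5 := rmul _ p1 p2
    rw [← hmul, hyy] at h4
    rw [hyy] at h5
    have h6 := mul_lt_mul_of_pos_left h3 hd
    rw [← h5]
    nlinarith
  · intro h ε hε
    obtain ⟨C, hC⟩ := h ε hε
    refine ⟨C / dg K + Real.log 2 + 1, fun x p1 p2 => ?_⟩
    have h2 := hC (yy x) ⟨yy_ne_zero p2, yy_ne_one p1 p2⟩
    have h3 := (H3_bounds p1 p2).2
    rw [← hmul] at h3
    rw [← rmul x p1 p2] at h2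
    have h4 : dg K * height3 x ≤ dg K * ((1 + ε) * rad3 x + (C / dg K + Real.log 2)) := by
      have e : dg K * (C / dg K) = C := by field_simp
      nlinarith
    have h5 := le_of_mul_le_mul_left h4 hd
    linarith

theorem height_eq (t : K) : dg K * height t = D t := by
  have e : height t = D t / dg K := by
    unfold height
    rw [D_eq]
    have h1 : ∀ w : InfinitePlace K, Real.log (max 1 (w t)) = Real.posLog (w t) := fun w =>
      log_max_one _ (apply_nonneg _ _)
    have h2 : ∀ v : HeightOneSpectrum (𝓞 K), Real.log (max 1 (FinitePlace.mk v t)) =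
        Real.posLog (FinitePlace.mk v t) := fun v => log_max_one _ (apply_nonneg _ _)
    simp only [h1, h2]
    rfl
  rw [e, mul_div_cancel₀ _ dg_pos.ne']

theorem truncated_eq (p q r : ℕ) (S : Set (HeightOneSpectrum (𝓞 K))) (t : K) :
    dg K * truncated p q r S t = W (J3 p q r S t) := by
  rw [show truncated p q r S t = W (J3 p q r S t) / dg K from rfl, mul_div_cancel₀ _ dg_pos.ne']

/-- the places -/
noncomputable def places {T : Set (HeightOneSpectrum (𝓞 K))} (hT : T.Finite) : Finset (Pl K) :=
  (Finset.univ : Finset (InfinitePlace K)).disjSum hT.toFinset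

theorem close_iff {T : Set (HeightOneSpectrum (𝓞 K))} (hT : T.Finite) (δ : ℝ) (x : K) :
    Close T δ x ↔ ∀ v ∈ places hT, 1 ≤ δ * av v x := by
  constructor
  · rintro ⟨h1, h2⟩ v hv
    rcases v with w | p
    · exact h1 w
    · exact h2 p (hT.mem_toFinset.1 (Finset.inr_mem_disjSum.1 hv))
  · intro h
    exact ⟨fun w => h (.inl w) (Finset.inl_mem_disjSum.2 (Finset.mem_univ w)),
      fun v hv => h (.inr v) (Finset.inr_mem_disjSum.2 (hT.mem_toFinset.2 hv))⟩

theorem of_vojta {p q : ℕ} {S T : Set (HeightOneSpectrum (𝓞 K))} (hT : T.Finite) {η : ℝ}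
    (h : Vojta p q 0 S (Close T η)) : Ineq p q S (places hT) η := by
  intro ε hε
  obtain ⟨C, hC⟩ := h ε hε
  refine ⟨dg K * C, ?_⟩
  rintro t ⟨ht0, ht1, hint, hclose⟩
  have hd := dg_pos (K := K)
  have h1 := hC t ht0 ht1 (fun v hv => ⟨(hint v hv).1, (hint v hv).2, fun h => absurd rfl h⟩)
    ((close_iff hT η t).2 hclose)
  have e0 : 1 / ((0 : ℕ) : ℝ) = 0 := by simp
  rw [e0, sub_zero] at h1
  have h2 := mul_le_mul_of_nonneg_left h1 hd.le
  have h3 := truncated_eq p q 0 S t
  rw [J3_zero] at h3
  rw [mul_add, h3] at h2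
  calc (1 - 1 / (p : ℝ) - 1 / (q : ℝ) - ε) * D t
      = dg K * ((1 - 1 / (p : ℝ) - 1 / (q : ℝ) - ε) * height t) := by
        rw [← height_eq]; ring
    _ ≤ _ := h2

theorem to_vojta (h : ABC K) (p q r : ℕ) {S : Set (HeightOneSpectrum (𝓞 K))} (hS : S.Finite) :
    Vojta p q r S (fun _ => True) := by
  intro δ hδ
  obtain ⟨C, hC⟩ := abc_ineq3 h p q r hS hδ
  refine ⟨C / dg K, fun t ht0 ht1 hint _ => ?_⟩
  have hd := dg_pos (K := K)
  have h1 := hC t ht0 ht1 hint
  refine le_of_mul_le_mul_left ?_ hd
  rw [mul_add, truncated_eq, mul_div_cancel₀ _ hd.ne']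
  calc dg K * ((1 - 1 / (p : ℝ) - 1 / (q : ℝ) - 1 / (r : ℝ) - δ) * height t)
      = (1 - 1 / (p : ℝ) - 1 / (q : ℝ) - 1 / (r : ℝ) - δ) * D t := by
        rw [← height_eq]; ring
    _ ≤ _ := h1

theorem vojta_mono {p q r : ℕ} {S : Set (HeightOneSpectrum (𝓞 K))} {A : K → Prop}
    (h : Vojta p q r S (fun _ => True)) : Vojta p q r S A := by
  intro δ hδ
  obtain ⟨C, hC⟩ := h δ hδ
  exact ⟨C, fun t h1 h2 h3 _ => hC t h1 h2 h3 trivial⟩

/-- **Every stacky line with a cusp is enough.** Let `p, q ≥ 0` be integers with `1/p + 1/q < 1` (where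
`1/0 = 0`), that is, not both `2` and none of them `1`.

There is a number field `k` such that over every number field `K` containing `k` and for all finite sets
`S`, `T` of primes of `K` and `η > 0` the abc conjecture over `K` is equivalent to Vojta's inequality for the
line with the stacky points `0`, `1` of orders `p`, `q` and the cusp `∞` over the `S`-integers, and also to
this inequality for the points `t` with `|t|_v ≥ 1/η` at all infinite places and at all `v ∈ T`.

Hence the abc conjecture for all number fields is equivalent to this inequality for all number fields,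
and to this inequality near the cusp, for a cofinal set of number fields, and to the inequality for all
the orders `p'`, `q'`, `r'` and all number fields. -/
theorem result (p q : ℕ) (h : 1 / (p : ℝ) + 1 / (q : ℝ) < 1) :
    (∃ (k : Type) (_ : Field k) (_ : NumberField k), ∀ (K : Type) [Field K] [NumberField K],
      (k →+* K) → ∀ S T : Set (HeightOneSpectrum (𝓞 K)), S.Finite → T.Finite → ∀ η : ℝ, 0 < η →
        List.TFAE [
          Abc K,
          Vojta p q 0 S (fun _ => True),
          Vojta p q 0 S (Close T η)]) ∧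
    List.TFAE [
      ∀ (K : Type) [Field K] [NumberField K], Abc K,
      ∀ (K : Type) [Field K] [NumberField K] (S : Set (HeightOneSpectrum (𝓞 K))), S.Finite →
        Vojta p q 0 S (fun _ => True),
      ∀ (K : Type) [Field K] [NumberField K], ∃ (L : Type) (_ : Field L) (_ : NumberField L)
        (_ : K →+* L) (S T : Set (HeightOneSpectrum (𝓞 L))) (η : ℝ), T.Finite ∧ 0 < η ∧
          Vojta p q 0 S (Close T η),
      ∀ (K : Type) [Field K] [NumberField K] (p' q' r' : ℕ) (S : Set (HeightOneSpectrum (𝓞 K))),
        S.Finite → Vojta p' q' r' S (fun _ => True)] := by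
  have h' : 0 < 1 - 1 / (p : ℝ) - 1 / (q : ℝ) := by linarith
  refine ⟨?_, ?_⟩
  · obtain ⟨k, i1, i2, hk⟩ := Pool.Agent.N757.AS.exists_field p q h'
    refine ⟨k, i1, i2, fun K _ _ f S T hS hT η hη => ?_⟩
    tfae_have 1 → 2 := fun h1 => to_vojta (abc_iff.1 h1) p q 0 hS
    tfae_have 2 → 3 := vojta_mono
    tfae_have 3 → 1 := fun h1 => abc_iff.2 (hk K f S ⟨places hT, η, hη, of_vojta hT h1⟩)
    tfae_finish
  · tfae_have 1 → 4 := fun h1 K _ _ p' q' r' S hS => to_vojta (abc_iff.1 (h1 K)) p' q' r' hS
    tfae_have 4 → 2 := fun h1 K _ _ S hS => h1 K p q 0 S hS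
    tfae_have 2 → 3 := fun h1 K _ _ => ⟨K, inferInstance, inferInstance, RingHom.id K, ∅, ∅, 1,
      Set.finite_empty, one_pos, vojta_mono (h1 K ∅ Set.finite_empty)⟩
    tfae_have 3 → 1 := fun h1 K _ _ => abc_iff.2 (Pool.Agent.N757.AS.global p q h'
      (fun K' _ _ => by
        obtain ⟨L, l1, l2, f, S, T, η, hT, hη, hV⟩ := h1 K'
        exact ⟨L, l1, l2, f.toAlgebra, S, places hT, η, hη, of_vojta hT hV⟩) K)
    tfae_finish

end Pool.Agent.Results.MP_a793bb_nt.AllStackyLines
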