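import Mathlib
import Pool.Agent.N906.QP.All

/-!
# The abc conjecture over number fields and its generalisation to finite subsets of the projective line: joint law of
# the radicals

`K` is a number field of degree `d`, `α_1, ..., α_q` (`q ≥ 2`) are different points of `P¹(K)` (for the abc conjecture
`q = 3` and the points are `0, ∞, -1`, `x = a / b`, `x + 1 = c / b`), `T` is a finite set of primes. Let `κ_l ≥ 0`,
`0 < κ = ∑ κ_l < 6/7` (`< 1` for `q = 3`) and `c` real. The number `V(B)` of the points `x` of `P¹(K)` of height at most `B`,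
different from the `α_l`, with `N_{T,l}(x) ≤ (1 - κ_l) h(x) + c` for `l = 1, ..., q` satisfies

  `log V(B) = d (2 - κ) log B + (∑_l √(8 κ_l d) + o(1)) √(log B / log log B)`.
-/

set_option autoImplicit false

namespace Pool.Agent.Results.MP_a793bb_nt.JointRadicals

open NumberField IsDedekindDomain Filter Topology

section

variable {K : Type} [Field K] [NumberField K]

/-- the absolute logarithmic height of a point (`Height.logHeight` is relative to `K`) -/
noncomputable def height (x : Projectivization K (Fin 2 → K)) : ℝ :=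
  Height.logHeight x.rep / (Module.finrank ℚ K : ℝ)

/-- the local height `λ_v(a, x)` for a prime `v`:
`log (max |x_i|_v max |a_i|_v / |x_0 a_1 - x_1 a_0|_v)`, divided by `[K : ℚ]` -/
noncomputable def localHeight (v : HeightOneSpectrum (𝓞 K)) (a : Fin 2 → K)
    (x : Projectivization K (Fin 2 → K)) : ℝ :=
  Real.log (max (FinitePlace.mk v (x.rep 0)) (FinitePlace.mk v (x.rep 1)) *
    max (FinitePlace.mk v (a 0)) (FinitePlace.mk v (a 1)) /
      FinitePlace.mk v (x.rep 0 * a 1 - x.rep 1 * a 0)) / (Module.finrank ℚ K : ℝ)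

/-- the radical `N_{T,l}(x)` of `x` for the point `a = α_l`: the sum over the primes `v` outside `T` of the truncated local
heights `min (λ_v(a, x), log N(v) / [K : ℚ])` (for almost all `v` this is `log N(v) / [K : ℚ]` if `x` and `a` coincide
modulo `v`, and zero otherwise) -/
noncomputable def radical (T : Set (HeightOneSpectrum (𝓞 K))) (a : Fin 2 → K)
    (x : Projectivization K (Fin 2 → K)) : ℝ :=
  ∑ᶠ (v : HeightOneSpectrum (𝓞 K)) (_ : v ∉ T),
    min (localHeight v a x) (Real.log (Ideal.absNorm v.asIdeal : ℝ) / (Module.finrank ℚ K : ℝ))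

/-- the points `x` different from the `α_l`, of height at most `B`, with `N_{T,l}(x) ≤ (1 - κ_l) h(x) + c` for all `l` -/
def Points (T : Set (HeightOneSpectrum (𝓞 K))) {q : ℕ} (α : Fin q → Fin 2 → K) (κ : Fin q → ℝ)
    (c B : ℝ) : Set (Projectivization K (Fin 2 → K)) :=
  {x | (∀ l, x.rep 0 * α l 1 - x.rep 1 * α l 0 ≠ 0) ∧ Real.exp (height x) ≤ B ∧
    ∀ l, radical T (α l) x ≤ (1 - κ l) * height x + c}

end

/-- the range of `κ`: `1` for three points, `6/7` in general -/
noncomputable def range (q : ℕ) : ℝ := if q = 3 then 1 else 6 / 7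

/-- **Theorem.** Let `K` be a number field of degree `d`, `T` a finite set of primes, `α_1, ..., α_q` (`q ≥ 2`) different
points of `P¹(K)`, `κ_l ≥ 0` with `0 < κ = ∑ κ_l < 6/7` (`< 1` for `q = 3`) and `c` real. The number `V(B)` of the points `x`
of `P¹(K)` different from the `α_l`, of height at most `B`, with `N_{T,l}(x) ≤ (1 - κ_l) h(x) + c` for all `l` is finite, and
`(log V(B) - d (2 - κ) log B) / √(log B / log log B)` tends to `∑_l √(8 κ_l d)`. -/
theorem result : ∀ (K : Type) [Field K] [NumberField K] (q : ℕ) (T : Set (HeightOneSpectrum (𝓞 K)))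
    (α : Fin q → Fin 2 → K) (κ : Fin q → ℝ) (c : ℝ), T.Finite → 2 ≤ q → (∀ l, α l ≠ 0) →
    (∀ l l', l ≠ l' → α l 0 * α l' 1 - α l 1 * α l' 0 ≠ 0) → (∀ l, 0 ≤ κ l) → 0 < ∑ l, κ l →
    ∑ l, κ l < range q →
    (∀ B : ℝ, (Points T α κ c B).Finite) ∧
    Tendsto (fun B : ℝ => (Real.log ((Points T α κ c B).ncard : ℝ) -
        Module.finrank ℚ K * (2 - ∑ l, κ l) * Real.log B) / √(Real.log B / Real.log (Real.log B))) atTop
      (𝓝 (∑ l, √(8 * κ l * Module.finrank ℚ K))) := by
  intro K _ _ q T α κ c hT hq hα hα' hκ hκ0 hκ1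
  by_cases h3 : q = 3
  · subst h3
    rw [range, if_pos rfl] at hκ1
    exact Pool.Agent.N906.KG.finj_three K T α κ c hT hq hα hα' hκ hκ0 hκ1 hκ1
  · rw [range, if_neg h3] at hκ1
    exact Pool.Agent.N906.KG.finj_all K q hq T α κ c hT hq hα hα' hκ hκ0 hκ1 (by linarith)

end Pool.Agent.Results.MP_a793bb_nt.JointRadicals
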