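import Pool.Agent.N757.RD.Point
import Pool.Agent.H437R2.Man.UpP1

/-!
# Reduction of the abc conjecture over a fixed number field to power-smooth points near a cusp

Let `K` be a number field of degree `d`. We prove that the abc conjecture over `K` (for all `ε`) is
equivalent to its restriction to a very thin set of points `P = (a : b : c)` with `a + b + c = 0`
and `abc ≠ 0`: the points for which, with given `δ, η > 0`, `M, r ≥ 1` and a given finite set `T` of
primes,
* `|a| ≤ δ |c|` at all infinite places and at the primes of `T`,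
* at every place of `K`, finite or infinite, all ratios of `‖a‖`, `‖b‖`, `‖c‖` are at most
  `H(P) ^ (η d)`; that is, for all primes `𝔭` the power of `𝔭` by which the coordinates differ has
  norm at most `H(P) ^ (η d)` (in particular so has every prime in the radical), and the
  archimedean absolute values of the coordinates are close to each other in the same sense,
* `- a / c` is an `r`-th power in `K`,
* the primes at which `a` and `c` have different valuations contribute at most `η h(P)` to the
  radical, and so do the primes whose norm is not congruent to one modulo `M`.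

The proof applies to an arbitrary point `(x : 1 - x : -1)` maps of the projective line of bounded
degree `N` which are unramified outside of `0, 1, ∞` and map these three points to themselves: for
them `h(f(x)) = N h(x) + O(1)` and `rad(f(x)) ≤ rad(x) + (N - 1) h(x) + O(1)`. First a power `x ^ n`,
with `n` in a finite set, is close to `0`, `1` or `∞` at all given places (recurrence and
compactness), then `z ↦ 4 z (1 - z)`, used twice, moves it close to `0` at all of these places at
once; then the `m`-th power is taken three times, with the cusps permuted in between, where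
`φ(m) / m` is small: as `1 - x ^ m` is a product of values of cyclotomic polynomials of degrees at
most `φ(m)`, of which at most one is small at a given place, this makes the coordinates power-smooth.
The field is fixed throughout.
-/

set_option autoImplicit false

namespace Pool.Agent.Results.MP_a793bb_nt.PowerSmoothNearCusp

open NumberField IsDedekindDomain

variable {K : Type} [Field K] [NumberField K]

/-- the height `h(P)` of the point `P` with coordinates `x` -/
noncomputable def height (x : Fin 3 → K) : ℝ :=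
  (∑ w : InfinitePlace K, (w.mult : ℝ) * Real.log (max (w (x 0)) (max (w (x 1)) (w (x 2)))) +
    ∑ᶠ v : HeightOneSpectrum (𝓞 K), Real.log
      (max (FinitePlace.mk v (x 0)) (max (FinitePlace.mk v (x 1)) (FinitePlace.mk v (x 2))))) /
    (Module.finrank ℚ K : ℝ)

/-- the part of the radical of the point `P` with coordinates `x` which comes from the primes in
`A`: the sum of `log N(v) / d` over the primes `v ∈ A` at which the valuations of the coordinates
are not all equal -/
noncomputable def radOn (A : Set (HeightOneSpectrum (𝓞 K))) (x : Fin 3 → K) : ℝ :=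
  (∑ᶠ (v : HeightOneSpectrum (𝓞 K)) (_ : v ∈ A ∧
      ¬ (FinitePlace.mk v (x 0) = FinitePlace.mk v (x 1) ∧
        FinitePlace.mk v (x 1) = FinitePlace.mk v (x 2))),
    Real.log (Ideal.absNorm v.asIdeal : ℝ)) / (Module.finrank ℚ K : ℝ)

/-- the radical `rad(P)` -/
noncomputable def rad (x : Fin 3 → K) : ℝ := radOn Set.univ x

/-- the points `P = (a : b : c)` of the abc conjecture: `a + b + c = 0` and `abc ≠ 0` -/
def IsPoint (x : Fin 3 → K) : Prop := x 0 + x 1 + x 2 = 0 ∧ x 0 * x 1 * x 2 ≠ 0

/-- the special points: `P = (x 0 : x 1 : x 2)` is close to the cusp `x 0 = 0` at all infinite places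
and at the primes of `T`; at all places the ratios of the (normalised) absolute values of the
coordinates are at most `H(P) ^ (η d) = exp (η d h(P))`; `- x 0 / x 2` is an `r`-th power; and the
primes at which `x 0` and `x 2` have different valuations, as well as the primes of norm not
congruent to one modulo `M`, contribute at most `η h(P)` to the radical -/
structure IsSpecial (T : Set (HeightOneSpectrum (𝓞 K))) (δ η : ℝ) (M r : ℕ) (x : Fin 3 → K) :
    Prop where
  close_inf : ∀ w : InfinitePlace K, w (x 0) ≤ δ * w (x 2)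
  close_fin : ∀ v ∈ T, FinitePlace.mk v (x 0) ≤ δ * FinitePlace.mk v (x 2)
  ratio_inf : ∀ (w : InfinitePlace K) (i j : Fin 3), w (x i) ^ w.mult ≤
    Real.exp (η * (Module.finrank ℚ K : ℝ) * height x) * w (x j) ^ w.mult
  ratio_fin : ∀ (v : HeightOneSpectrum (𝓞 K)) (i j : Fin 3), FinitePlace.mk v (x i) ≤
    Real.exp (η * (Module.finrank ℚ K : ℝ) * height x) * FinitePlace.mk v (x j)
  power : ∃ u : K, x 0 = -(u ^ r * x 2)
  small : radOn {v | FinitePlace.mk v (x 0) ≠ FinitePlace.mk v (x 2)} x ≤ η * height x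
  norms : radOn {v | ¬ Ideal.absNorm v.asIdeal ≡ 1 [MOD M]} x ≤ η * height x

/-- the assertion of the abc conjecture over `K` for the points with the property `Q` -/
def Abc (K : Type) [Field K] [NumberField K] (Q : (Fin 3 → K) → Prop) : Prop :=
  ∀ ε : ℝ, 0 < ε → ∃ C : ℝ, ∀ x : Fin 3 → K, IsPoint x → Q x → height x < (1 + ε) * rad x + C

open Pool.Agent.N757.RD

theorem height_eq (x : Fin 3 → K) : height x = H3 x / dg K := rfl

theorem height_mul (x : Fin 3 → K) : dg K * height x = H3 x := by
  rw [height_eq, mul_div_cancel₀ _ dg_pos.ne']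

theorem radOn_mul {A : Set (HeightOneSpectrum (𝓞 K))} {x : Fin 3 → K} (hx : IsPoint x) :
    dg K * radOn A x = W (A ∩ I (yy x)) := by
  have e : radOn A x = W (A ∩ I (yy x)) / dg K := by
    rw [I_yy hx.1 hx.2]
    rfl
  rw [e, mul_div_cancel₀ _ dg_pos.ne']

theorem rad_mul {x : Fin 3 → K} (hx : IsPoint x) : dg K * rad x = R (yy x) := by
  unfold rad
  rw [radOn_mul hx, Set.univ_inter]
  rfl

/-- the point with `- a / c = y` -/
def pt (y : K) : Fin 3 → K := ![y, 1 - y, -1]

omit [NumberField K] in
theorem isPoint_pt {y : K} (h0 : y ≠ 0) (h1 : y ≠ 1) : IsPoint (pt y) := by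
  have h2 : (1 : K) - y ≠ 0 := sub_ne_zero.2 h1.symm
  refine ⟨?_, ?_⟩
  · simp [pt]
  · simp [pt, h0, h2]

omit [NumberField K] in
theorem yy_pt (y : K) : yy (pt y) = y := by simp [yy, pt]

theorem exp_bound {a b B : ℝ} {m : ℕ} (ha : 0 < a) (hb : 0 < b)
    (h : (m : ℝ) * Real.log a - m * Real.log b ≤ B) : a ^ m ≤ Real.exp B * b ^ m := by
  have h1 : a ^ m = Real.exp (m * Real.log a) := by
    rw [← Real.log_pow, Real.exp_log (pow_pos ha m)]
  have h2 : b ^ m = Real.exp (m * Real.log b) := by
    rw [← Real.log_pow, Real.exp_log (pow_pos hb m)]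
  rw [h1, h2, ← Real.exp_add]
  exact Real.exp_le_exp.2 (by linarith)

/-- the ratios of the coordinates of `pt y` -/
theorem ratio_pt {y : K} {B : ℝ} (hB : 0 ≤ B) (h : Sizes y B) (v : Pl K) (i j : Fin 3) :
    (mt v : ℝ) * Real.log (av v (pt y i)) - mt v * Real.log (av v (pt y j)) ≤ 2 * B := by
  obtain ⟨h1, h2, h3, h4⟩ := h
  have g1 := h1 v
  have g2 := h2 v
  have g3 := h3 v
  have g4 := h4 v
  have e0 : pt y 0 = y := rfl
  have e1 : pt y 1 = 1 - y := rfl
  have e2 : pt y 2 = -1 := rfl
  have e3 : Real.log (av v (-1 : K)) = 0 := by rw [(av v).map_neg, (av v).map_one, Real.log_one]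
  fin_cases i <;> fin_cases j <;>
    simp only [Fin.zero_eta, Fin.mk_one, Fin.reduceFinMk, e0, e1, e2, e3] <;> linarith

theorem special_pt {T : Set (HeightOneSpectrum (𝓞 K))} {δ η : ℝ} {M r : ℕ} (hη : 0 < η) {y : K}
    (h0 : y ≠ 0) (h1 : y ≠ 1) (hinf : ∀ w : InfinitePlace K, w y < δ)
    (hfin : ∀ v ∈ T, FinitePlace.mk v y < δ) (hres : Res' (η / 2) M r y) :
    IsSpecial T δ η M r (pt y) := by
  have hP := isPoint_pt h0 h1
  have hd := dg_pos (K := K)
  have hD := D_nonneg y
  have hb := (H3_bounds hP.1 hP.2).1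
  rw [yy_pt] at hb
  have hdh : D y ≤ dg K * height (pt y) := by rw [height_mul]; exact hb
  have hne : ∀ i, pt y i ≠ 0 := by
    intro i
    have h2 : (1 : K) - y ≠ 0 := sub_ne_zero.2 h1.symm
    fin_cases i
    · exact h0
    · exact h2
    · exact neg_ne_zero.2 one_ne_zero
  have hB : 2 * (η / 2 * D y) ≤ η * dg K * height (pt y) := by
    have := mul_le_mul_of_nonneg_left hdh hη.le
    linarith
  have hB0 : 0 ≤ η / 2 * D y := by positivity
  have hconv : ∀ {A : Set (HeightOneSpectrum (𝓞 K))}, W (A ∩ I y) ≤ η / 2 * D y →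
      radOn A (pt y) ≤ η * height (pt y) := by
    intro A hA
    have e := radOn_mul (A := A) hP
    rw [yy_pt] at e
    have h2 : dg K * radOn A (pt y) ≤ dg K * (η * height (pt y)) := by
      rw [e]
      have := mul_le_mul_of_nonneg_left hdh hη.le
      linarith
    exact le_of_mul_le_mul_left h2 hd
  have e2 : pt y 2 = -1 := rfl
  refine ⟨?_, ?_, ?_, ?_, ?_, ?_, ?_⟩
  · intro w
    have e : w (-1 : K) = 1 := by
      have h2 := w.val.map_neg (1 : K)
      rw [w.val.map_one] at h2
      exact h2
    rw [e2, e, mul_one]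
    exact (hinf w).le
  · intro v hv
    have e : FinitePlace.mk v (-1 : K) = 1 := by rw [map_neg_eq_map, map_one]
    rw [e2, e, mul_one]
    exact (hfin v hv).le
  · intro w i j
    refine exp_bound (w.pos_iff.2 (hne i)) (w.pos_iff.2 (hne j)) ?_
    exact (ratio_pt hB0 hres.sizes (.inl w) i j).trans hB
  · intro v i j
    have h2 := exp_bound (m := 1) (FinitePlace.pos_iff.2 (hne i)) (FinitePlace.pos_iff.2 (hne j))
      ((ratio_pt hB0 hres.sizes (.inr v) i j).trans hB)
    rwa [pow_one, pow_one] at h2
  · obtain ⟨u, hu⟩ := hres.pow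
    refine ⟨u, ?_⟩
    rw [e2, ← hu]
    simp [pt]
  · apply hconv
    have e : {v : HeightOneSpectrum (𝓞 K) | FinitePlace.mk v (pt y 0) ≠ FinitePlace.mk v (pt y 2)} =
        supp y := by
      rw [← supp_yy hP.2, yy_pt]
    rw [e]
    exact (W_mono Set.inter_subset_left (finite_ne_one h0)).trans hres.supp
  · apply hconv
    refine (W_mono ?_ ?_).trans hres.bad
    · rintro v ⟨hv1, hv2⟩
      refine ⟨hv2, fun h => hv1 ?_⟩
      have h3 : 1 ≤ Ideal.absNorm v.asIdeal := (HeightOneSpectrum.one_lt_absNorm v).le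
      exact ((Nat.modEq_iff_dvd' h3).2 h).symm
    · exact (finite_I h0 h1).subset fun v hv => hv.1

/-- the special points of height `H(P) = exp h(P)` at most `B` -/
def SpecialPoints (T : Set (HeightOneSpectrum (𝓞 K))) (δ η : ℝ) (M r : ℕ) (B : ℝ) :
    Set (Projectivization K (Fin 3 → K)) :=
  {P | ∃ (x : Fin 3 → K) (hx : x ≠ 0), P = Projectivization.mk K x hx ∧ IsPoint x ∧
    IsSpecial T δ η M r x ∧ Real.exp (height x) ≤ B}

/-- few numbers of bounded height -/
theorem count_K (K : Type) [Field K] [NumberField K] : ∃ C : ℝ, 0 ≤ C ∧ ∀ A : ℝ, 0 ≤ A →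
    {u : K | D u ≤ A}.Finite ∧ ({u : K | D u ≤ A}.ncard : ℝ) ≤ C * Real.exp (2 * A) := by
  classical
  obtain ⟨C, hC, h⟩ := Pool.Agent.H437R2.Man.count_P1 K
  refine ⟨C, hC, fun A hA => ?_⟩
  have hfin : {u : K | D u ≤ A}.Finite := NumberField.finite_setOfPred_logHeight₁_le K A
  refine ⟨hfin, ?_⟩
  have hv : ∀ u : K, (![u, 1] : Fin 2 → K) ≠ 0 := fun u h' => one_ne_zero (congrFun h' 1)
  set f : K → Projectivization K (Fin 2 → K) := fun u => Projectivization.mk K ![u, 1] (hv u)
    with hf
  have hinj : Function.Injective f := by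
    intro u u' huu
    simp only [hf] at huu
    rw [Projectivization.mk_eq_mk_iff'] at huu
    obtain ⟨a, ha⟩ := huu
    have h1 := congrFun ha 1
    have h0 := congrFun ha 0
    simp only [Pi.smul_apply, smul_eq_mul, Matrix.cons_val_zero, Matrix.cons_val_one,
      Matrix.cons_val_fin_one, mul_one] at h0 h1
    rw [h1, one_mul] at h0
    exact h0.symm
  have h1 := h (hfin.toFinset.image f) (Real.exp A) (Real.one_le_exp hA) ?_
  · rw [Finset.card_image_of_injective _ hinj] at h1
    rw [Set.ncard_eq_toFinset_card _ hfin]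
    refine h1.trans (le_of_eq ?_)
    rw [← Real.exp_nat_mul]
    norm_num
  · intro p hp
    rw [Finset.mem_image] at hp
    obtain ⟨u, hu, rfl⟩ := hp
    rw [Set.Finite.mem_toFinset] at hu
    simp only [hf]
    rw [Projectivization.mulHeight_mk, ← Height.mulHeight₁_eq_mulHeight]
    have h2 : Real.log (Height.mulHeight₁ u) ≤ A := hu
    rw [← Real.exp_log (Height.mulHeight₁_pos u)]
    exact Real.exp_le_exp.2 h2

theorem count_special (K : Type) [Field K] [NumberField K] : ∃ C : ℝ, 0 ≤ C ∧
    ∀ (T : Set (HeightOneSpectrum (𝓞 K))) (δ η : ℝ) (M r : ℕ), 0 < r → ∀ B : ℝ, 1 ≤ B →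
      (SpecialPoints T δ η M r B).Finite ∧ ((SpecialPoints T δ η M r B).ncard : ℝ) ≤
        C * B ^ (2 * (Module.finrank ℚ K : ℝ) / r) := by
  classical
  obtain ⟨C, hC, h⟩ := count_K K
  refine ⟨C, hC, fun T δ η M r hr B hB => ?_⟩
  have hd := dg_pos (K := K)
  have hr0 : (0 : ℝ) < r := by exact_mod_cast hr
  have hB0 : 0 < B := by linarith
  have hlogB : 0 ≤ Real.log B := Real.log_nonneg hB
  obtain ⟨hfin, hcard⟩ := h (dg K / r * Real.log B) (by positivity)
  have hz : ∀ u : K, (![-u ^ r, u ^ r - 1, 1] : Fin 3 → K) ≠ 0 := fun u h' =>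
    one_ne_zero (congrFun h' 2)
  have hsub : SpecialPoints T δ η M r B ⊆
      (fun u : K => Projectivization.mk K ![-u ^ r, u ^ r - 1, 1] (hz u)) ''
        {u : K | D u ≤ dg K / r * Real.log B} := by
    rintro P ⟨x, hx, rfl, hP, hs, hB'⟩
    obtain ⟨u, hu⟩ := hs.power
    have h2 : x 2 ≠ 0 := fun h' => hP.2 (by rw [h']; ring)
    have hyy : yy x = u ^ r := by
      unfold yy
      rw [hu]
      field_simp
    refine ⟨u, ?_, ?_⟩
    · have h3 := (H3_bounds hP.1 hP.2).1
      rw [hyy, D_pow, ← height_mul] at h3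
      have h4 : height x ≤ Real.log B := by
        rw [← Real.log_exp (height x)]
        exact Real.log_le_log (Real.exp_pos _) hB'
      have h5 : (r : ℝ) * D u ≤ dg K * Real.log B :=
        h3.trans (mul_le_mul_of_nonneg_left h4 hd.le)
      change D u ≤ dg K / r * Real.log B
      rw [div_mul_eq_mul_div, le_div_iff₀ hr0]
      linarith
    · rw [Projectivization.mk_eq_mk_iff']
      refine ⟨(x 2)⁻¹, ?_⟩
      have h1' : x 1 = -x 0 - x 2 := by linear_combination hP.1
      funext i
      fin_cases i
      · change (x 2)⁻¹ * x 0 = -u ^ r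
        rw [hu]
        field_simp
      · change (x 2)⁻¹ * x 1 = u ^ r - 1
        rw [h1', hu]
        field_simp
      · change (x 2)⁻¹ * x 2 = 1
        exact inv_mul_cancel₀ h2
  have hfin2 := (hfin.image
    (fun u : K => Projectivization.mk K ![-u ^ r, u ^ r - 1, 1] (hz u))).subset hsub
  refine ⟨hfin2, ?_⟩
  have h3 : (SpecialPoints T δ η M r B).ncard ≤ {u : K | D u ≤ dg K / r * Real.log B}.ncard :=
    (Set.ncard_le_ncard hsub (hfin.image _)).trans (Set.ncard_image_le hfin)
  calc ((SpecialPoints T δ η M r B).ncard : ℝ)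
      ≤ ({u : K | D u ≤ dg K / r * Real.log B}.ncard : ℝ) := by exact_mod_cast h3
    _ ≤ C * Real.exp (2 * (dg K / r * Real.log B)) := hcard
    _ = C * B ^ (2 * (Module.finrank ℚ K : ℝ) / r) := by
        rw [Real.rpow_def_of_pos hB0]
        have e : 2 * (dg K / r * Real.log B) =
            Real.log B * (2 * (Module.finrank ℚ K : ℝ) / r) := by
          unfold dg
          ring
        rw [e]

/-- **Reduction of the abc conjecture over a number field.** Let `K` be a number field, `T` a finite
set of primes of `K`, `δ, η > 0` real and `M, r ≥ 1` integers.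
(1) For every `ε > 0` there is `ε' > 0` such that for every `C'` there is `C` with the following
property: if `h(P) < (1 + ε') rad(P) + C'` for all special points `P`, then
`h(P) < (1 + ε) rad(P) + C` for all points `P`.
(2) The abc conjecture over `K` is equivalent to its restriction to the special points.
(3) There are few special points: at most `C B ^ (2 d / r)` of height `H(P) ≤ B`, where `C` depends
on `K` only. -/
theorem result : ∀ (K : Type) [Field K] [NumberField K],
    (∀ T : Set (HeightOneSpectrum (𝓞 K)), T.Finite → ∀ (δ η : ℝ) (M r : ℕ),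
      0 < δ → 0 < η → 0 < M → 0 < r →
      (∀ ε : ℝ, 0 < ε → ∃ ε' : ℝ, 0 < ε' ∧ ∀ C' : ℝ, ∃ C : ℝ,
        (∀ x : Fin 3 → K, IsPoint x → IsSpecial T δ η M r x → height x < (1 + ε') * rad x + C') →
        ∀ x : Fin 3 → K, IsPoint x → height x < (1 + ε) * rad x + C) ∧
      (Abc K (fun _ => True) ↔ Abc K (IsSpecial T δ η M r))) ∧
    ∃ C : ℝ, ∀ (T : Set (HeightOneSpectrum (𝓞 K))) (δ η : ℝ) (M r : ℕ), 0 < r →
      ∀ B : ℝ, 1 ≤ B → (SpecialPoints T δ η M r B).Finite ∧
        ((SpecialPoints T δ η M r B).ncard : ℝ) ≤ C * B ^ (2 * (Module.finrank ℚ K : ℝ) / r) := by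
  classical
  intro K _ _
  obtain ⟨C₀, -, hcount⟩ := count_special K
  refine ⟨?_, C₀, hcount⟩
  intro T hT δ η M r hδ hη hM hr
  have hd := dg_pos (K := K)
  have part1 : ∀ ε : ℝ, 0 < ε → ∃ ε' : ℝ, 0 < ε' ∧ ∀ C' : ℝ, ∃ C : ℝ,
      (∀ x : Fin 3 → K, IsPoint x → IsSpecial T δ η M r x → height x < (1 + ε') * rad x + C') →
      ∀ x : Fin 3 → K, IsPoint x → height x < (1 + ε) * rad x + C := by
    intro ε hε
    set S : Finset (Pl K) := (Finset.univ : Finset (InfinitePlace K)).map ⟨Sum.inl, Sum.inl_injective⟩ ∪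
      hT.toFinset.map ⟨Sum.inr, Sum.inr_injective⟩ with hS
    obtain ⟨ε', hε', h⟩ := reduce_field K S δ ε (η / 2) hδ hε (by positivity) M r hM hr
    refine ⟨ε', hε', fun C' => ?_⟩
    obtain ⟨C, hC⟩ := h (C' * dg K)
    refine ⟨C / dg K + Real.log 2 + 1, fun hyp x hx => ?_⟩
    have h2 := hC ?_ (yy x) (yy_ne_zero hx.2) (yy_ne_one hx.1 hx.2)
    · have h3 := (H3_bounds hx.1 hx.2).2
      rw [← height_mul, ← rad_mul hx] at *
      have h4 : dg K * height x ≤ dg K * ((1 + ε) * rad x + (C / dg K + Real.log 2)) := by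
        have e : dg K * (C / dg K) = C := by field_simp
        nlinarith
      have h5 := le_of_mul_le_mul_left h4 hd
      linarith
    · intro y y0 y1 hnear hres
      have hinf : ∀ w : InfinitePlace K, w y < δ := fun w => hnear (.inl w) (by
        rw [hS, Finset.mem_union]
        exact Or.inl (Finset.mem_map.2 ⟨w, Finset.mem_univ w, rfl⟩))
      have hfin : ∀ v ∈ T, FinitePlace.mk v y < δ := fun v hv => hnear (.inr v) (by
        rw [hS, Finset.mem_union]
        exact Or.inr (Finset.mem_map.2 ⟨v, hT.mem_toFinset.2 hv, rfl⟩))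
      have hP := isPoint_pt y0 y1
      have h3 := hyp (pt y) hP (special_pt hη y0 y1 hinf hfin hres)
      have h4 := (H3_bounds hP.1 hP.2).1
      have h5 := rad_mul hP
      rw [← height_mul] at h4
      rw [yy_pt] at h4 h5
      have h6 := mul_lt_mul_of_pos_left h3 hd
      rw [← h5]
      nlinarith
  refine ⟨part1, fun h ε hε => ?_, fun h ε hε => ?_⟩
  · obtain ⟨C, hC⟩ := h ε hε
    exact ⟨C, fun x hx _ => hC x hx trivial⟩
  · obtain ⟨ε', hε', h1⟩ := part1 ε hε
    obtain ⟨C', hC'⟩ := h ε' hε'
    obtain ⟨C, hC⟩ := h1 C'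
    exact ⟨C, fun x hx _ => hC hC' x hx⟩

end Pool.Agent.Results.MP_a793bb_nt.PowerSmoothNearCusp
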