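import Mathlib
import Pool.Agent.N906.RS.Lim
import Pool.Agent.N906.RS.All

/-!
# The exact second order term in the number of the points with small radical

`K` is a number field of degree `d` and `0 < κ < 1`. Let `N(B)` be the number of the points
`P = (a : b : c)` over `K` with `a + b + c = 0`, `abc ≠ 0`, height `H(P) = exp h(P) ≤ B` and
`rad(P) ≤ (3 - κ) h(P)`. Then

  `log N(B) = d (2 - κ) log B + (√(24 κ d) + o(1)) √(log B / log log B)`.

The exponent `d (2 - κ)` was known (upper bound: the starting hand-in `ExceptionsAtEveryLevel` in this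
folder, with a factor `B ^ δ`). The second term is the one predicted by the probabilistic model of
Robert, Stewart and Tenenbaum for `K = ℚ`; the model is proved here for all number fields in the whole
range `rad > 2 h` in which the exponent is known.
-/

set_option autoImplicit false

namespace Pool.Agent.Results.MP_a793bb_nt.SecondOrderTerm

open NumberField IsDedekindDomain Filter Topology

variable {K : Type} [Field K] [NumberField K]

/-- the height `h(P)` of the point `P` with coordinates `x` -/
noncomputable def height (x : Fin 3 → K) : ℝ :=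
  (∑ w : InfinitePlace K, (w.mult : ℝ) * Real.log (max (w (x 0)) (max (w (x 1)) (w (x 2)))) +
    ∑ᶠ v : HeightOneSpectrum (𝓞 K), Real.log
      (max (FinitePlace.mk v (x 0)) (max (FinitePlace.mk v (x 1)) (FinitePlace.mk v (x 2))))) /
    (Module.finrank ℚ K : ℝ)

/-- the radical of the point `P` with coordinates `x`: the sum of `log N(v) / d` over the primes `v` at
which the valuations of the coordinates are not all equal -/
noncomputable def rad (x : Fin 3 → K) : ℝ :=
  (∑ᶠ (v : HeightOneSpectrum (𝓞 K)) (_ : ¬ (FinitePlace.mk v (x 0) = FinitePlace.mk v (x 1) ∧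
        FinitePlace.mk v (x 1) = FinitePlace.mk v (x 2))),
    Real.log (Ideal.absNorm v.asIdeal : ℝ)) / (Module.finrank ℚ K : ℝ)

variable (K) in
/-- the points `P = (a : b : c)` with `a + b + c = 0`, `abc ≠ 0`, `exp h(P) ≤ B` and
`rad(P) ≤ (3 - κ) h(P)` -/
def Points (κ B : ℝ) : Set (Projectivization K (Fin 3 → K)) :=
  {P | ∃ (x : Fin 3 → K) (hx : x ≠ 0), P = Projectivization.mk K x hx ∧ x 0 + x 1 + x 2 = 0 ∧
    x 0 * x 1 * x 2 ≠ 0 ∧ Real.exp (height x) ≤ B ∧ rad x ≤ (3 - κ) * height x}

theorem points_eq {κ B : ℝ} (hB : 0 < B) : Points K κ B =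
    Pool.Agent.N906.RS.VX K κ ((Module.finrank ℚ K : ℝ) * Real.log B) := by
  have hd : (0 : ℝ) < Module.finrank ℚ K := by
    exact_mod_cast (Module.finrank_pos (R := ℚ) (M := K))
  have hH : ∀ x : Fin 3 → K, Pool.Agent.W223.AK.H3 x = (Module.finrank ℚ K : ℝ) * height x := by
    intro x
    unfold height
    rw [mul_div_cancel₀ _ hd.ne']
    rfl
  have hR : ∀ x : Fin 3 → K, Pool.Agent.W223.AK.R3 ∅ x = (Module.finrank ℚ K : ℝ) * rad x := by
    intro x
    unfold rad
    rw [mul_div_cancel₀ _ hd.ne']
    unfold Pool.Agent.W223.AK.R3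
    refine finsum_congr fun v => ?_
    refine finsum_congr_Prop ?_ fun _ => rfl
    simp
  ext P
  constructor
  · rintro ⟨x, hx, h1, h2, h3, h4, h5⟩
    refine ⟨x, hx, h1, h2, h3, ?_, ?_⟩
    · rw [hH]
      exact mul_le_mul_of_nonneg_left ((Real.le_log_iff_exp_le hB).2 h4) hd.le
    · rw [hH, hR]
      nlinarith
  · rintro ⟨x, hx, h1, h2, h3, h4, h5⟩
    rw [hH] at h4
    rw [hH, hR] at h5
    refine ⟨x, hx, h1, h2, h3, ?_, ?_⟩
    · exact (Real.le_log_iff_exp_le hB).1 (le_of_mul_le_mul_left h4 hd)
    · exact le_of_mul_le_mul_left (by linarith) hd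

/-- **The second order term.** Let `K` be a number field of degree `d` and `0 < κ < 1`, and let `N(B)` be
the number of the points `P = (a : b : c)` over `K` with `a + b + c = 0`, `abc ≠ 0`, `exp h(P) ≤ B` and
`rad(P) ≤ (3 - κ) h(P)`. Then `N(B)` is finite and
`(log N(B) - d (2 - κ) log B) / √(log B / log log B)` tends to `√(24 κ d)` for `B → ∞`. -/
theorem result : ∀ (K : Type) [Field K] [NumberField K] (κ : ℝ), 0 < κ → κ < 1 →
    (∀ B : ℝ, (Points K κ B).Finite) ∧
    Tendsto (fun B : ℝ => (Real.log ((Points K κ B).ncard : ℝ) -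
      (Module.finrank ℚ K : ℝ) * (2 - κ) * Real.log B) / √(Real.log B / Real.log (Real.log B)))
      atTop (𝓝 √(24 * κ * (Module.finrank ℚ K : ℝ))) := by
  intro K _ _ κ h0 h1
  constructor
  · intro B
    rcases le_or_gt B 0 with hB | hB
    · have : Points K κ B = ∅ := by
        ext P
        simp only [Set.mem_empty_iff_false, iff_false]
        rintro ⟨x, hx, -, -, -, h4, -⟩
        linarith [Real.exp_pos (height x)]
      rw [this]
      exact Set.finite_empty
    · rw [points_eq hB]
      exact Pool.Agent.N906.RS.VX_finite K (Pool.Agent.N906.RS.up_all K) h0 h1 _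
  · have h := (Pool.Agent.N906.RS.limit K (Pool.Agent.N906.RS.up_all K) (Pool.Agent.N906.RS.lo_all K) h0 h1).comp Real.tendsto_log_atTop
    refine h.congr' ?_
    filter_upwards [eventually_gt_atTop (0 : ℝ)] with B hB
    rw [Function.comp_apply, points_eq hB]
    congr 2
    ring

end Pool.Agent.Results.MP_a793bb_nt.SecondOrderTerm
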